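import Pool.Agent.Run7.h745.RV.Iface

/-!
# Pieces UT, UNIQ and EX of the project RV of helper745
-/

set_option autoImplicit false
set_option linter.unusedSectionVars false

noncomputable section

namespace Run7.h547.RV

open Filter Topology Pool.Agent.H188R3 Run7.h745 Run7.h745.RV Run7.h973.AH Run7.h745.AH

section tn
variable {n : ℕ}

lemma tn_add (a b : A n) (e : E) : tn (a + b) e = tn a e + tn b e := ntr_add _ _

lemma tn_sub (a b : A n) (e : E) : tn (a - b) e = tn a e - tn b e := ntr_sub _ _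

lemma tn_smul (c : ℂ) (a : A n) (e : E) : tn (c • a) e = c * tn a e := ntr_smul _ _

lemma tn_one (e : E) : tn (1 : A n) e = 1 := ntr_one

lemma tn_comm (a b : A n) (e : E) : tn (a * b) e = tn (b * a) e := ntr_comm _ _

lemma tn_pos (a : A n) (e : E) : 0 ≤ (tn (star a * a) e).re ∧ (tn (star a * a) e).im = 0 := ntr_pos _

lemma tn_norm (a : A n) (e : E) : ‖tn a e‖ ≤ ‖a‖ := (ntr_norm _).trans (A.norm_at_le a e)

lemma tn_phi (a : A n) (e : E) : tn (φ n a) e = (tn a e + tn a (!e.1, xs n)) / 2 := by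
  unfold tn
  rw [φ_at]
  unfold AH.ntr
  have h : ∑ p : I (n + 1), (dg n (a.at e) (a.at (!e.1, xs n))).en p p =
      ∑ p : I n, (dg n (a.at e) (a.at (!e.1, xs n))).en (oldR p) (oldR p) +
      ∑ p : I n, (dg n (a.at e) (a.at (!e.1, xs n))).en (newR p) (newR p) :=
    Fintype.sum_sum_type (α₁ := I n) (α₂ := I n)
      (f := fun p : I n ⊕ I n => (dg n (a.at e) (a.at (!e.1, xs n))).en (show I (n + 1) from p)
        (show I (n + 1) from p))
  rw [h]
  simp only [dg_old, dg_new]
  rw [card_I, card_I]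
  push_cast
  have h2 : (2 : ℂ) ^ n ≠ 0 := pow_ne_zero _ two_ne_zero
  field_simp
  ring

end tn

/-- the oscillation in one component is halved in each step -/
lemma osc (n : ℕ) (a : A n) (r : ℕ) : ∀ (h : Bool) (ω ω' : Ω),
    ‖tn (trans φ n (n + r) a) (h, ω) - tn (trans φ n (n + r) a) (h, ω')‖ ≤ 2 * ‖a‖ / 2 ^ r := by
  induction r with
  | zero =>
    intro h ω ω'
    rw [Nat.add_zero, trans_self, pow_zero, div_one]
    have h1 := tn_norm a (h, ω)
    have h2 := tn_norm a (h, ω')
    calc _ ≤ ‖tn a (h, ω)‖ + ‖tn a (h, ω')‖ := norm_sub_le _ _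
      _ ≤ _ := by linarith
  | succ r ih =>
    intro h ω ω'
    rw [show n + (r + 1) = (n + r) + 1 from rfl, trans_succ φ (Nat.le_add_right n r), tn_phi, tn_phi,
      ← sub_div, add_sub_add_right_eq_sub, norm_div, pow_succ, ← div_div]
    have h2 : ‖(2 : ℂ)‖ = 2 := by norm_num
    rw [h2]
    exact div_le_div_of_nonneg_right (ih h ω ω') (by norm_num)

theorem t_UT : S_UT := by
  intro n a ε hε
  obtain ⟨r, hr⟩ : ∃ r : ℕ, 2 * ‖a‖ / 2 ^ r ≤ ε := by
    have h1 : Tendsto (fun r : ℕ => 2 * ‖a‖ / (2 : ℝ) ^ r) atTop (𝓝 0) :=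
      tendsto_const_nhds.div_atTop (tendsto_pow_atTop_atTop_of_one_lt (by norm_num))
    obtain ⟨r, hr⟩ := (h1.eventually (gt_mem_nhds hε)).exists
    exact ⟨r, hr.le⟩
  have ho := osc n a r
  set b : A (n + r) := trans φ n (n + r) a with hb
  refine ⟨n + r + 1, tn (φ (n + r) b) (true, Classical.arbitrary Ω), by omega, fun e => ?_⟩
  rw [trans_succ φ (Nat.le_add_right n r), ← hb, tn_phi, tn_phi, ← sub_div, norm_div]
  have h2 : ‖(2 : ℂ)‖ = 2 := by norm_num
  rw [h2]
  obtain ⟨h, ω⟩ := e
  have key : ∀ x y z w : ℂ, ‖x - z‖ ≤ ε → ‖y - w‖ ≤ ε → ‖x + y - (z + w)‖ / 2 ≤ ε := by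
    intro x y z w h1 h2
    have h3 : x + y - (z + w) = (x - z) + (y - w) := by ring
    rw [h3]
    have := norm_add_le (x - z) (y - w)
    linarith
  cases h
  · have h3 : tn b (false, ω) + tn b (!false, xs (n + r)) -
        (tn b (true, Classical.arbitrary Ω) + tn b (!true, xs (n + r))) =
        tn b (true, xs (n + r)) + tn b (false, ω) -
        (tn b (true, Classical.arbitrary Ω) + tn b (false, xs (n + r))) := by
      simp only [Bool.not_false, Bool.not_true]; ring
    show ‖tn b (false, ω) + tn b (!false, xs (n + r)) -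
        (tn b (true, Classical.arbitrary Ω) + tn b (!true, xs (n + r)))‖ / 2 ≤ ε
    rw [h3]
    exact key _ _ _ _ ((ho _ _ _).trans hr) ((ho _ _ _).trans hr)
  · exact key _ _ _ _ ((ho _ _ _).trans hr) ((ho _ _ _).trans hr)

theorem t_UNIQ : S_UNIQ := by
  intro hUT hTRP L _ j h σ τ
  refine ts_ext_lim h fun n a => ?_
  have key : ∀ ε : ℝ, 0 < ε → ‖σ.val (j n a) - τ.val (j n a)‖ ≤ 2 * ε := by
    intro ε hε
    obtain ⟨m, c, hnm, hc⟩ := hUT n a ε hε
    have h1 := hTRP m (ts_comp σ (j m)) (trans φ n m a) c ε hc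
    have h2 := hTRP m (ts_comp τ (j m)) (trans φ n m a) c ε hc
    rw [ts_comp_val, comp_trans j h.comp hnm] at h1 h2
    have h3 : σ.val (j n a) - τ.val (j n a) = (σ.val (j n a) - c) - (τ.val (j n a) - c) := by ring
    rw [h3]
    have := norm_sub_le (σ.val (j n a) - c) (τ.val (j n a) - c)
    linarith
  have h0 : ‖σ.val (j n a) - τ.val (j n a)‖ ≤ 0 := by
    refine le_of_forall_pos_le_add fun ε hε => ?_
    have := key (ε / 2) (half_pos hε)
    linarith
  exact sub_eq_zero.1 (norm_le_zero_iff.1 h0)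

theorem t_EX : S_EX := by
  intro L _ j h
  let e₀ : E := (true, Classical.arbitrary Ω)
  let F : Ultrafilter ℕ := Filter.hyperfilter ℕ
  have hF : (F : Filter ℕ) ≤ atTop := by
    rw [← Nat.cofinite_eq_atTop]
    exact Filter.hyperfilter_le_cofinite
  have key : ∀ z : L, ∃ l : ℂ, ∀ b : ∀ i, A i, Tendsto (fun i => j i (b i)) F (𝓝 z) →
      Tendsto (fun i => tn (b i) e₀) F (𝓝 l) := by
    intro z
    obtain ⟨x, hx, hxb⟩ := exists_seq h z
    have hc : IsCompact (Metric.closedBall (0 : ℂ) (2 * ‖z‖ + 1)) := isCompact_closedBall 0 _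
    obtain ⟨l, -, hl⟩ := hc.ultrafilter_le_nhds (F.map fun i => tn (x i) e₀) (by
      rw [Filter.le_principal_iff]
      refine Filter.mem_map.mpr (Filter.univ_mem' fun i => ?_)
      show tn (x i) e₀ ∈ Metric.closedBall (0 : ℂ) (2 * ‖z‖ + 1)
      rw [mem_closedBall_zero_iff]
      exact (tn_norm _ _).trans (hxb _))
    refine ⟨l, fun b hb => ?_⟩
    have h1 : Tendsto (fun i => j i (b i) - j i (x i)) F (𝓝 0) := by
      have := hb.sub (hx.mono_left hF)
      rwa [sub_self] at this
    have h2 : Tendsto (fun i => tn (b i) e₀ - tn (x i) e₀) F (𝓝 0) := by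
      refine squeeze_zero_norm (fun i => ?_) (tendsto_zero_iff_norm_tendsto_zero.1 h1)
      rw [← tn_sub, ← map_sub, norm_map_inj (j i) (h.inj i)]
      exact tn_norm _ _
    have h3 := h2.add (show Tendsto (fun i => tn (x i) e₀) F (𝓝 l) from hl)
    rw [zero_add] at h3
    exact h3.congr fun i => by ring
  choose ℓ hℓ using key
  have hseq : ∀ z : L, ∃ b : ∀ i, A i, Tendsto (fun i => j i (b i)) F (𝓝 z) := by
    intro z
    obtain ⟨x, hx, -⟩ := exists_seq h z
    exact ⟨fun i => x i, hx.mono_left hF⟩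
  choose b hb using hseq
  have hadd : ∀ z w, ℓ (z + w) = ℓ z + ℓ w := by
    intro z w
    refine tendsto_nhds_unique (hℓ (z + w) (fun i => b z i + b w i) ?_) ?_
    · exact ((hb z).add (hb w)).congr fun i => (map_add _ _ _).symm
    · exact ((hℓ z _ (hb z)).add (hℓ w _ (hb w))).congr fun i => (tn_add _ _ _).symm
  have hsmul : ∀ (c : ℂ) z, ℓ (c • z) = c * ℓ z := by
    intro c z
    refine tendsto_nhds_unique (hℓ (c • z) (fun i => c • b z i) ?_) ?_
    · exact ((hb z).const_smul c).congr fun i => (map_smul _ _ _).symm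
    · exact ((hℓ z _ (hb z)).const_mul c).congr fun i => (tn_smul _ _ _).symm
  refine ⟨{ val := { toFun := ℓ, map_add' := hadd, map_smul' := fun c a => by rw [hsmul]; rfl }
            map_one := ?_
            nonneg := ?_
            comm := ?_ }⟩
  · refine tendsto_nhds_unique (hℓ 1 (fun i => 1) ?_) ?_
    · exact tendsto_const_nhds.congr fun i => (map_one _).symm
    · exact tendsto_const_nhds.congr fun i => (tn_one _).symm
  · intro z
    have h1 : Tendsto (fun i => tn (star (b z i) * b z i) e₀) F (𝓝 (ℓ (star z * z))) := by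
      refine hℓ _ _ ?_
      exact ((hb z).star.mul (hb z)).congr fun i => by rw [map_mul, map_star]
    constructor
    · have h2 := (Complex.continuous_re.tendsto _).comp h1
      exact ge_of_tendsto h2 (Filter.Eventually.of_forall fun i => (tn_pos _ _).1)
    · have h2 := (Complex.continuous_im.tendsto _).comp h1
      refine tendsto_nhds_unique h2 ?_
      exact (tendsto_const_nhds (x := (0 : ℝ))).congr fun i => (tn_pos _ _).2.symm
  · intro z w
    have h1 : Tendsto (fun i => tn (b z i * b w i) e₀) F (𝓝 (ℓ (z * w))) := by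
      refine hℓ _ _ ?_
      exact ((hb z).mul (hb w)).congr fun i => by rw [map_mul]
    have h2 : Tendsto (fun i => tn (b w i * b z i) e₀) F (𝓝 (ℓ (w * z))) := by
      refine hℓ _ _ ?_
      exact ((hb w).mul (hb z)).congr fun i => by rw [map_mul]
    exact tendsto_nhds_unique h1 (h2.congr fun i => tn_comm _ _ _)

end Run7.h547.RV
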